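import Pool.Agent.Lib_MP_05ae4a_op.Other
import Pool.Agent.Lib_MP_05ae4a_op.Bridge

/-!
# MP_05ae4a_co: essential extreme points of the profiles of `t`-intersecting families, `t ≥ 2`

For all `n ≥ t ≥ 2`:

* the profile `v_r` of every Frankl family `{F : |F ∩ [t + 2r]| ≥ t + r}` is an essential
  extreme point;
* every essential extreme point has smallest size `t + ρ` with `t + 2ρ ≤ n`, is full on the
  sizes `≥ n - ρ`, and is the profile of a family which is invariant under the permutations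
  of the first `t + 2r` elements, where `r = ρ` (and then the point is `v_ρ`) or
  `r < ρ` and `(ρ + 1)(t + 2r + 1) < (r + 1) n`;
* `v_ρ` is the only essential extreme point with smallest size `t + ρ` if and only if
  `(ρ + 1)(n - t + 1 - 2ρ) ≤ n`;
* so `E_n(t)` consists of the points `v_r` if and only if `(ρ + 1)(n - t + 1 - 2ρ) ≤ n` for all
  `ρ ≤ (n - t)/2`.
-/

namespace Pool.Agent.Results.MP_05ae4a_co.FranklPoints

open Pool.Agent.ProfEP Pool.Agent.ProfOP

/-- the family `F` of subsets of `{0, ..., n - 1}` is `t`-intersecting -/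
def TInter (n t : ℕ) (F : Finset (Finset (Fin n))) : Prop :=
  ∀ A ∈ F, ∀ B ∈ F, t ≤ (A ∩ B).card

/-- the profile vector `(p_0, ..., p_n)` of the family `F` -/
def profile (n : ℕ) (F : Finset (Finset (Fin n))) : Fin (n + 1) → ℝ :=
  fun k => ((F.filter (fun A => A.card = (k : ℕ))).card : ℝ)

/-- the set `P_n(t)` of profile vectors of `t`-intersecting families -/
def P (n t : ℕ) : Set (Fin (n + 1) → ℝ) :=
  {p | ∃ F : Finset (Finset (Fin n)), TInter n t F ∧ p = profile n F}

/-- the set `E_n(t)` of essential extreme points: the extreme points of the convex hull of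
`P_n(t)` which are not below another extreme point -/
def E (n t : ℕ) : Set (Fin (n + 1) → ℝ) :=
  {p | p ∈ (convexHull ℝ (P n t)).extremePoints ℝ ∧
    ∀ q ∈ (convexHull ℝ (P n t)).extremePoints ℝ, p ≤ q → q = p}

/-- the Frankl family of all sets with at least `t + r` elements among the first `t + 2r` -/
def frankl (n t r : ℕ) : Finset (Finset (Fin n)) :=
  Finset.univ.filter (fun A => t + r ≤ (A.filter (fun x : Fin n => (x : ℕ) < t + 2 * r)).card)

/-- the explicit point `v_r` with coordinates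
`p_k = ∑_{t + r ≤ i ≤ k} C(t + 2r, i) C(n - t - 2r, k - i)` -/
def point (n t r : ℕ) : Fin (n + 1) → ℝ :=
  fun k => ∑ i ∈ Finset.Icc (t + r) (k : ℕ),
    ((t + 2 * r).choose i : ℝ) * ((n - (t + 2 * r)).choose ((k : ℕ) - i) : ℝ)

/-- the smallest index of a nonzero coordinate of `p` is `m` -/
def Bottom {n : ℕ} (p : Fin (n + 1) → ℝ) (m : ℕ) : Prop :=
  (∀ k : Fin (n + 1), (k : ℕ) < m → p k = 0) ∧ ∀ k : Fin (n + 1), (k : ℕ) = m → 0 < p k

/-- `F` is invariant under all transpositions of the first `m` elements: if a member contains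
`y` and not `x`, where `x, y < m`, then `y` may be replaced by `x` -/
def Invariant {n : ℕ} (F : Finset (Finset (Fin n))) (m : ℕ) : Prop :=
  ∀ A ∈ F, ∀ y ∈ A, ∀ x, x ∉ A → (x : ℕ) < m → (y : ℕ) < m → insert x (A.erase y) ∈ F

/-! ### The explicit formula -/

theorem hcard_split {n : ℕ} (A T : Finset (Fin n)) : (A ∩ T).card + (A \ T).card = A.card := by
  rw [Finset.card_inter_add_card_sdiff]

theorem card_level {n : ℕ} (I : Finset (Fin n)) (k i : ℕ) (hik : i ≤ k) :
    (Finset.univ.filter (fun A : Finset (Fin n) => A.card = k ∧ (A ∩ I).card = i)).card =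
      I.card.choose i * (n - I.card).choose (k - i) := by
  have hc : (Iᶜ).card = n - I.card := by rw [Finset.card_compl, Fintype.card_fin]
  rw [← hc, ← Finset.card_powersetCard i I, ← Finset.card_powersetCard (k - i) Iᶜ,
    ← Finset.card_product]
  refine Finset.card_bij (fun A _ => (A ∩ I, A \ I)) ?_ ?_ ?_
  · intro A hA
    rw [Finset.mem_filter] at hA
    obtain ⟨_, h1, h2⟩ := hA
    have h3 := hcard_split A I
    rw [Finset.mem_product, Finset.mem_powersetCard, Finset.mem_powersetCard]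
    refine ⟨⟨Finset.inter_subset_right, h2⟩,
      ⟨fun x hx => Finset.mem_compl.2 (Finset.mem_sdiff.1 hx).2, ?_⟩⟩
    show (A \ I).card = k - i
    omega
  · intro A _ B _ hAB
    simp only [Prod.mk.injEq] at hAB
    ext x
    have h1 := Finset.ext_iff.1 hAB.1 x
    have h2 := Finset.ext_iff.1 hAB.2 x
    by_cases hx : x ∈ I
    · simpa [hx] using h1
    · simpa [hx] using h2
  · rintro ⟨S, T⟩ hST
    rw [Finset.mem_product, Finset.mem_powersetCard, Finset.mem_powersetCard] at hST
    obtain ⟨⟨h1, h2⟩, h3, h4⟩ := hST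
    simp only at h1 h2 h3 h4
    have hTI : ∀ x ∈ T, x ∉ I := fun x hx => Finset.mem_compl.1 (h3 hx)
    have hd : Disjoint S T := by
      rw [Finset.disjoint_left]
      intro x hx hxT
      exact hTI x hxT (h1 hx)
    have e1 : (S ∪ T) ∩ I = S := by
      ext x
      simp only [Finset.mem_inter, Finset.mem_union]
      constructor
      · rintro ⟨hx | hx, hxI⟩
        · exact hx
        · exact absurd hxI (hTI x hx)
      · intro hx
        exact ⟨Or.inl hx, h1 hx⟩
    have e2 : (S ∪ T) \ I = T := by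
      ext x
      simp only [Finset.mem_sdiff, Finset.mem_union]
      constructor
      · rintro ⟨hx | hx, hxI⟩
        · exact absurd (h1 hx) hxI
        · exact hx
      · intro hx
        exact ⟨Or.inr hx, hTI x hx⟩
    refine ⟨S ∪ T, ?_, by rw [e1, e2]⟩
    rw [Finset.mem_filter, e1, Finset.card_union_of_disjoint hd, h2, h4]
    exact ⟨Finset.mem_univ _, by omega, rfl⟩

theorem profile_frankl {n t r : ℕ} (h : t + 2 * r ≤ n) :
    profile n (frankl n t r) = point n t r := by
  funext k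
  unfold profile point
  obtain ⟨I, hI⟩ : ∃ I : Finset (Fin n), I = Finset.univ.filter (fun x : Fin n => (x : ℕ) < t + 2 * r) :=
    ⟨_, rfl⟩
  have hIc : I.card = t + 2 * r := by
    have h4 : I = (tail n (n - (t + 2 * r)))ᶜ := by
      rw [hI]
      ext x
      simp only [Finset.mem_compl, mem_tail, Finset.mem_filter, Finset.mem_univ, true_and]
      have hx := x.2
      omega
    rw [h4, card_compl_tail (by omega)]
    omega
  have hAI : ∀ A : Finset (Fin n), A.filter (fun x : Fin n => (x : ℕ) < t + 2 * r) = A ∩ I := by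
    intro A
    rw [hI]
    ext x
    simp only [Finset.mem_inter, Finset.mem_filter, Finset.mem_univ, true_and]
  have hcov : (frankl n t r).filter (fun A => A.card = (k : ℕ)) =
      (Finset.Icc (t + r) (k : ℕ)).biUnion (fun i =>
        Finset.univ.filter (fun A : Finset (Fin n) => A.card = (k : ℕ) ∧ (A ∩ I).card = i)) := by
    ext A
    simp only [frankl, Finset.mem_filter, Finset.mem_univ, true_and, Finset.mem_biUnion,
      Finset.mem_Icc, hAI]
    constructor
    · rintro ⟨h1, h2⟩
      refine ⟨(A ∩ I).card, ⟨h1, ?_⟩, h2, rfl⟩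
      rw [← h2]
      exact Finset.card_le_card Finset.inter_subset_left
    · rintro ⟨i, ⟨h1, h2⟩, h3, h4⟩
      exact ⟨by omega, h3⟩
  rw [hcov, Finset.card_biUnion]
  · rw [Nat.cast_sum]
    refine Finset.sum_congr rfl (fun i hi => ?_)
    rw [Finset.mem_Icc] at hi
    rw [card_level I k i hi.2, hIc]
    push_cast
    rfl
  · intro i _ j _ hij
    rw [Function.onFun, Finset.disjoint_left]
    intro A hA hA'
    rw [Finset.mem_filter] at hA hA'
    exact hij (hA.2.2.symm.trans hA'.2.2)


/-! ### Dictionary -/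

theorem E_eq (n t : ℕ) : E n t = Ess (P n t) := rfl

theorem profile_apply {n : ℕ} (F : Finset (Finset (Fin n))) (k : Fin (n + 1)) :
    profile n F k = (lev F k : ℝ) := rfl

theorem profile_congr {n : ℕ} {F G : Finset (Finset (Fin n))} (h : ∀ j, lev F j = lev G j) :
    profile n F = profile n G := by
  funext k
  rw [profile_apply, profile_apply, h]

theorem frankl_eq {n t r : ℕ} : frankl n t r = Fr n t r := by
  unfold frankl Fr
  refine Finset.filter_congr (fun A _ => ?_)
  have h : A.filter (fun x : Fin n => (x : ℕ) < t + 2 * r) = A ∩ pre n (t + 2 * r) := by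
    ext x
    rw [Finset.mem_filter, Finset.mem_inter, mem_pre]
  rw [h]

theorem P_finite (n t : ℕ) : (P n t).Finite := by
  refine (Set.finite_range (fun F : Finset (Finset (Fin n)) => profile n F)).subset ?_
  rintro p ⟨F, _, rfl⟩
  exact ⟨F, rfl⟩

theorem P_nonneg {n t : ℕ} : ∀ p ∈ P n t, 0 ≤ p := by
  rintro p ⟨F, _, rfl⟩ k
  exact Nat.cast_nonneg _

theorem P_zer {n t : ℕ} : ∀ p ∈ P n t, ∀ S : Finset (Fin (n + 1)), zer S p ∈ P n t := by
  rintro p ⟨F, hF, rfl⟩ S
  refine ⟨F.filter (fun A => ∃ k ∈ S, A.card = (k : ℕ)), ?_, ?_⟩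
  · intro A hA B hB
    exact hF A (Finset.mem_filter.1 hA).1 B (Finset.mem_filter.1 hB).1
  · funext k
    unfold zer profile
    rw [Finset.filter_filter]
    split_ifs with hk
    · congr 2
      ext A
      simp only [Finset.mem_filter]
      constructor
      · rintro ⟨h1, h2⟩
        exact ⟨h1, ⟨k, hk, h2⟩, h2⟩
      · rintro ⟨h1, _, h2⟩
        exact ⟨h1, h2⟩
    · symm
      rw [Nat.cast_eq_zero, Finset.card_eq_zero, Finset.filter_eq_empty_iff]
      rintro A _ ⟨⟨k', hk', h1⟩, h2⟩
      exact hk ((Fin.ext (h1.symm.trans h2) : k' = k) ▸ hk')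

/-- the extension of the weights -/
noncomputable def ext {n : ℕ} (α : Fin (n + 1) → ℝ) : ℕ → ℝ :=
  fun k => if h : k < n + 1 then α ⟨k, h⟩ else 1

theorem ext_pos {n : ℕ} {α : Fin (n + 1) → ℝ} (hα : ∀ i, 0 < α i) (k : ℕ) : 0 < ext α k := by
  unfold ext
  split_ifs
  · exact hα _
  · exact one_pos

theorem wgt_ext {n : ℕ} (α : Fin (n + 1) → ℝ) (F : Finset (Finset (Fin n))) :
    wgt (ext α) F = val α (profile n F) := by
  rw [wgt_eq, Finset.sum_range, val]
  refine Finset.sum_congr rfl (fun i _ => ?_)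
  have h : ext α (i : ℕ) = α i := by
    unfold ext
    rw [dif_pos i.2]
  rw [h, profile_apply, mul_comm]

theorem wgt_val {n : ℕ} (α : ℕ → ℝ) (F : Finset (Finset (Fin n))) :
    wgt α F = val (fun i : Fin (n + 1) => α i) (profile n F) := by
  rw [wgt_eq, Finset.sum_range, val]
  refine Finset.sum_congr rfl (fun i _ => ?_)
  rw [profile_apply, mul_comm]

/-- an essential point comes from an optimal shifted family -/
theorem exists_opt {n t : ℕ} (htn : t ≤ n) {p : Fin (n + 1) → ℝ} (hp : p ∈ E n t) :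
    ∃ (α : ℕ → ℝ) (F : Finset (Finset (Fin n))), (∀ k, 0 < α k) ∧ Opt α t F ∧ LS F ∧
      p = profile n F := by
  obtain ⟨α, hα, hmax⟩ := unique_of_ess (P_finite n t) P_nonneg P_zer hp
  obtain ⟨F, hF, hpF⟩ := extremePoints_convexHull_subset hp.1
  have hopt : Opt (ext α) t F := by
    refine ⟨hF, fun G hG => ?_⟩
    rw [wgt_ext, wgt_ext, ← hpF]
    by_cases h : profile n G = p
    · rw [h]
    · exact (hmax _ ⟨G, hG, rfl⟩ h).le
  obtain ⟨H, h1, h2, h3⟩ := opt_ls htn hopt
  exact ⟨ext α, H, ext_pos hα, h1, h2, by rw [hpF, profile_congr h3]⟩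

theorem bottom_of {n t : ℕ} {F : Finset (Finset (Fin n))} {ρ : ℕ}
    (h1 : ∃ A ∈ F, A.card = t + ρ) (h2 : ∀ A ∈ F, t + ρ ≤ A.card) :
    Bottom (profile n F) (t + ρ) := by
  refine ⟨fun k hk => ?_, fun k hk => ?_⟩
  · rw [profile_apply, Nat.cast_eq_zero, lev, Finset.card_eq_zero, Finset.filter_eq_empty_iff]
    intro A hA hAk
    have := h2 A hA
    omega
  · obtain ⟨A, hA, hAc⟩ := h1
    rw [profile_apply, Nat.cast_pos, lev, Finset.card_pos]
    exact ⟨A, Finset.mem_filter.2 ⟨hA, by omega⟩⟩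

theorem bottom_point {n t r : ℕ} : Bottom (point n t r) (t + r) := by
  refine ⟨fun k hk => ?_, fun k hk => ?_⟩
  · unfold point
    rw [Finset.Icc_eq_empty (by omega), Finset.sum_empty]
  · unfold point
    rw [hk, Finset.Icc_self, Finset.sum_singleton, Nat.sub_self, Nat.choose_zero_right,
      Nat.cast_one, mul_one]
    exact_mod_cast Nat.choose_pos (by omega)

theorem bottom_unique {n m m' : ℕ} {p : Fin (n + 1) → ℝ} (hm : m ≤ n) (hm' : m' ≤ n)
    (h : Bottom p m) (h' : Bottom p m') : m = m' := by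
  rcases lt_trichotomy m m' with hlt | heq | hlt
  · have h1 := h.2 ⟨m, by omega⟩ rfl
    rw [h'.1 ⟨m, by omega⟩ hlt] at h1
    exact absurd h1 (lt_irrefl _)
  · exact heq
  · have h1 := h'.2 ⟨m', by omega⟩ rfl
    rw [h.1 ⟨m', by omega⟩ hlt] at h1
    exact absurd h1 (lt_irrefl _)

/-- all large sets belong to an optimal family with smallest size `t + ρ` -/
theorem large_mem {n t : ℕ} {α : ℕ → ℝ} {F : Finset (Finset (Fin n))} (hα : ∀ k, 0 < α k)
    (hF : Opt α t F) {ρ : ℕ} (hρ : t + 2 * ρ ≤ n) (h2 : ∀ A ∈ F, t + ρ ≤ A.card)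
    {A : Finset (Fin n)} (hA : n ≤ A.card + ρ) : A ∈ F := by
  refine opt_add hα hF (by omega) (fun B hB => ?_)
  have h1 := card_inter_ge A B
  have h3 := h2 B hB
  omega

/-- the condition on the prefix -/
theorem num_prefix {n t ρ r b b' : ℕ} (ht : 2 ≤ t) {x y : ℝ} (hx : 0 < x) (hy : 0 < y)
    (hr : r < ρ) (hb : b + b' + (t + 2 * r) + 1 = n) (hbρ : ρ ≤ r + b) (hbρ' : ρ ≤ r + b')
    (h : x * (((t : ℝ) + r) * b - ((r : ℝ) + 1) * b') +
        y * (((t : ℝ) + r) * b' - ((r : ℝ) + 1) * b) ≤ 0) :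
    (ρ + 1) * (t + 2 * r + 1) < (r + 1) * n := by
  by_contra hcon
  rw [not_lt] at hcon
  have key : ∀ c c' : ℕ, c + c' + (t + 2 * r) + 1 = n → ρ ≤ r + c →
      0 ≤ ((t : ℝ) + r) * c - ((r : ℝ) + 1) * c' := by
    intro c c' hcc hc
    have e1 : (n : ℝ) = c + c' + (t + 2 * r) + 1 := by
      rw [← hcc]
      push_cast
      ring
    have e2 : ((r : ℝ) + 1) * n ≤ ((ρ : ℝ) + 1) * (t + 2 * r + 1) := by exact_mod_cast hcon
    have e3 : (ρ : ℝ) ≤ r + c := by exact_mod_cast hc
    have e4 : ((ρ : ℝ) + 1) * (t + 2 * r + 1) ≤ ((r : ℝ) + c + 1) * (t + 2 * r + 1) :=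
      mul_le_mul_of_nonneg_right (by linarith) (by positivity)
    rw [e1] at e2
    linarith
  have e1 := key b b' hb hbρ
  have e2 := key b' b (by omega) hbρ'
  have g1 := mul_nonneg hx.le e1
  have g2 := mul_nonneg hy.le e2
  have y1 := (mul_eq_zero.1 (by linarith : x * (((t : ℝ) + r) * b - ((r : ℝ) + 1) * b') = 0)).resolve_left
    hx.ne'
  have y2 := (mul_eq_zero.1 (by linarith : y * (((t : ℝ) + r) * b' - ((r : ℝ) + 1) * b) = 0)).resolve_left
    hy.ne'
  have y3 : ((t : ℝ) - 1) * ((b : ℝ) + b') = 0 := by linarith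
  have ht' : (2 : ℝ) ≤ t := by exact_mod_cast ht
  have y4 := (mul_eq_zero.1 y3).resolve_left (by linarith)
  have hb1 : (1 : ℝ) ≤ b := by
    have : 1 ≤ b := by omega
    exact_mod_cast this
  have hb' : (0 : ℝ) ≤ b' := Nat.cast_nonneg b'
  linarith

/-- the value of the point `v_r` at its two relevant coordinates -/
theorem point_self {n t r : ℕ} {k : Fin (n + 1)} (hk : (k : ℕ) = t + r) :
    point n t r k = ((t + 2 * r).choose (t + r) : ℝ) := by
  unfold point
  rw [hk, Finset.Icc_self, Finset.sum_singleton, Nat.sub_self, Nat.choose_zero_right,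
    Nat.cast_one, mul_one]

theorem point_next {n t r : ℕ} {k : Fin (n + 1)} (hk : (k : ℕ) = t + r + 1) :
    point n t r k = ((t + 2 * r).choose (t + r) : ℝ) * ((n - (t + 2 * r) : ℕ) : ℝ) +
      ((t + 2 * r).choose (t + r + 1) : ℝ) := by
  unfold point
  rw [hk, ← Finset.insert_Icc_add_one_left_eq_Icc (by omega : t + r ≤ t + r + 1),
    Finset.Icc_self, Finset.sum_insert (by rw [Finset.mem_singleton]; omega),
    Finset.sum_singleton, Nat.sub_self, Nat.choose_zero_right, Nat.cast_one, mul_one]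
  have h : t + r + 1 - (t + r) = 1 := by omega
  rw [h, Nat.choose_one_right]

/-! ### The theorem -/

/-- For all `n ≥ t ≥ 2`: all points `v_r` are essential; every essential point has a bottom
`t + ρ` and comes from a family with a large symmetric prefix; `v_ρ` is the only one with bottom
`t + ρ` exactly if `(ρ + 1)(n - t + 1 - 2ρ) ≤ n`. -/
theorem result (n t : ℕ) (ht : 2 ≤ t) (htn : t ≤ n) :
    (∀ r, t + 2 * r ≤ n → TInter n t (frankl n t r) ∧ profile n (frankl n t r) = point n t r ∧
      Bottom (point n t r) (t + r) ∧ point n t r ∈ E n t) ∧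
    (∀ p ∈ E n t, ∃ ρ, t + 2 * ρ ≤ n ∧ Bottom p (t + ρ) ∧
      (∀ k : Fin (n + 1), n ≤ k + ρ → p k = (n.choose k : ℝ)) ∧
      (p = point n t ρ ∨ ∃ r, r < ρ ∧ (ρ + 1) * (t + 2 * r + 1) < (r + 1) * n ∧
        ∃ F : Finset (Finset (Fin n)), TInter n t F ∧ Invariant F (t + 2 * r) ∧
          profile n F = p)) ∧
    (∀ ρ, t + 2 * ρ ≤ n → ((∀ p ∈ E n t, Bottom p (t + ρ) → p = point n t ρ) ↔
      (ρ + 1) * (n - t + 1 - 2 * ρ) ≤ n)) ∧
    (E n t = {p | ∃ r, t + 2 * r ≤ n ∧ p = point n t r} ↔
      ∀ ρ, t + 2 * ρ ≤ n → (ρ + 1) * (n - t + 1 - 2 * ρ) ≤ n) := by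
  have h1 : ∀ r, t + 2 * r ≤ n → TInter n t (frankl n t r) ∧
      profile n (frankl n t r) = point n t r ∧ Bottom (point n t r) (t + r) ∧
      point n t r ∈ E n t := by
    intro r hr
    have hT : TInter n t (frankl n t r) := by
      rw [frankl_eq]
      exact ti_Fr n t r hr
    refine ⟨hT, profile_frankl hr, bottom_point, ?_⟩
    obtain ⟨α, hα, huniq⟩ := exists_weights ht hr
    have hshift : ∀ F : Finset (Finset (Fin n)), Opt α t F → profile n F = point n t r := by
      intro F hF
      obtain ⟨H, g1, g2, g3⟩ := opt_ls htn hF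
      rw [← profile_frankl hr, frankl_eq, ← huniq H g1 g2]
      exact (profile_congr g3).symm
    have hopt : Opt α t (Fr n t r) := by
      obtain ⟨F, hF⟩ := opt_exists n t α
      obtain ⟨H, g1, g2, _⟩ := opt_ls htn hF
      rw [← huniq H g1 g2]
      exact g1
    refine ess_of_unique (α := fun i : Fin (n + 1) => α i) (fun i => hα _) ?_ ?_
    · exact ⟨frankl n t r, hT, (profile_frankl hr).symm⟩
    · rintro q ⟨G, hG, rfl⟩ hne
      rw [← wgt_val, ← profile_frankl hr, frankl_eq, ← wgt_val]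
      refine lt_of_le_of_ne (hopt.2 G hG) (fun heq => ?_)
      refine hne (hshift G ⟨hG, fun K hK => ?_⟩)
      rw [heq]
      exact hopt.2 K hK
  have h2 : ∀ p ∈ E n t, ∃ ρ, t + 2 * ρ ≤ n ∧ Bottom p (t + ρ) ∧
      (∀ k : Fin (n + 1), n ≤ k + ρ → p k = (n.choose k : ℝ)) ∧
      (p = point n t ρ ∨ ∃ r, r < ρ ∧ (ρ + 1) * (t + 2 * r + 1) < (r + 1) * n ∧
        ∃ F : Finset (Finset (Fin n)), TInter n t F ∧ Invariant F (t + 2 * r) ∧
          profile n F = p) := by
    intro p hp
    obtain ⟨α, F, hα, hF, hL, hpF⟩ := exists_opt htn hp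
    obtain ⟨ρ, hρ, hA, hmin⟩ := bottom hα htn hF
    refine ⟨ρ, hρ, hpF ▸ bottom_of hA hmin, ?_, ?_⟩
    · intro k hk
      rw [hpF, profile_apply, lev]
      have hlev : F.filter (fun A => A.card = (k : ℕ)) =
          Finset.powersetCard (k : ℕ) (Finset.univ : Finset (Fin n)) := by
        ext A
        rw [Finset.mem_filter, Finset.mem_powersetCard]
        constructor
        · rintro ⟨_, h4⟩
          exact ⟨Finset.subset_univ _, h4⟩
        · rintro ⟨_, h4⟩
          exact ⟨large_mem hα hF hρ hmin (by omega), h4⟩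
      rw [hlev, Finset.card_powersetCard, Finset.card_univ, Fintype.card_fin]
    · rcases dichotomy hα ht hF hL hρ hA hmin with h | ⟨r, b, b', g1, g2, g3, g4, g5, g6⟩
      · left
        rw [hpF, h, ← frankl_eq, profile_frankl hρ]
      · right
        exact ⟨r, g1, num_prefix ht (hα _) (hα _) g1 g2 g3 g4 g6, F, hF.1, g5, hpF.symm⟩
  have h3 : ∀ ρ, t + 2 * ρ ≤ n → ((∀ p ∈ E n t, Bottom p (t + ρ) → p = point n t ρ) ↔
      (ρ + 1) * (n - t + 1 - 2 * ρ) ≤ n) := by
    intro ρ hρ
    constructor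
    · intro hall
      by_contra hcon
      rw [not_le] at hcon
      obtain ⟨d, hd⟩ : ∃ d, n = t + 2 * ρ + d := ⟨n - t - 2 * ρ, by omega⟩
      have hρ1 : 1 ≤ ρ := by
        by_contra h0
        have h0' : ρ = 0 := by omega
        rw [h0'] at hcon
        omega
      have hd2 : t + ρ < n - ρ := by
        by_contra hh
        have h4 : d = 0 := by omega
        have h5 : n - t + 1 - 2 * ρ = 1 := by omega
        rw [h5] at hcon
        omega
      obtain ⟨α, hα, hW⟩ := exists_weights_other ht hρ hd2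
      obtain ⟨p, hp, hmax⟩ := exists_ess_max (P_finite n t)
        ⟨_, ⟨frankl n t ρ, (h1 ρ hρ).1, rfl⟩⟩ (α := fun i : Fin (n + 1) => α i) (fun i => hα _)
      obtain ⟨F, hF, hpF⟩ := extremePoints_convexHull_subset hp.1
      have hopt : Opt α t F := by
        refine ⟨hF, fun G hG => ?_⟩
        rw [wgt_val, wgt_val, ← hpF]
        exact hmax _ ⟨G, hG, rfl⟩
      obtain ⟨g1, g2⟩ := hW F hopt
      have hk : t + ρ < n + 1 := by omega
      have g3 : point n t (ρ - 1) ⟨t + ρ, hk⟩ ≤ p ⟨t + ρ, hk⟩ := by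
        rw [hpF, ← profile_frankl (by omega : t + 2 * (ρ - 1) ≤ n), frankl_eq, profile_apply,
          profile_apply]
        exact_mod_cast g2 (ρ - 1) (by omega)
      have g4 : point n t ρ ⟨t + ρ, hk⟩ < point n t (ρ - 1) ⟨t + ρ, hk⟩ := by
        rw [point_self rfl, point_next (by simp only; omega)]
        have h6 := num_other (by omega) hρ1 hρ hcon
        have h7 : t + ρ - 1 = t + (ρ - 1) := by omega
        have h8 : t + ρ = t + (ρ - 1) + 1 := by omega
        rw [h7] at h6
        rw [← h8]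
        exact_mod_cast h6
      have g5 : 0 < p ⟨t + ρ, hk⟩ := by
        have := (bottom_point (n := n) (t := t) (r := ρ)).2 ⟨t + ρ, hk⟩ rfl
        linarith
      have hb : Bottom p (t + ρ) := by
        refine ⟨fun k hk => ?_, fun k hk => ?_⟩
        · rw [hpF, profile_apply, Nat.cast_eq_zero, lev, Finset.card_eq_zero,
            Finset.filter_eq_empty_iff]
          intro A hA hAk
          have := g1 A hA
          omega
        · have : k = ⟨t + ρ, by omega⟩ := Fin.ext hk
          rw [this]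
          exact g5
      have := hall p hp hb
      rw [← this] at g4
      linarith
    · intro hc p hp hb
      obtain ⟨α, F, hα, hF, hL, hpF⟩ := exists_opt htn hp
      obtain ⟨ρ', hρ', hA, hmin⟩ := bottom hα htn hF
      have hb' : Bottom p (t + ρ') := hpF ▸ bottom_of hA hmin
      have := bottom_unique (by omega) (by omega) hb hb'
      have heq : ρ' = ρ := by omega
      subst heq
      rw [hpF, uniq hα ht hF hL hρ' hA hmin hc, ← frankl_eq, profile_frankl hρ']
  refine ⟨h1, h2, h3, ?_⟩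
  constructor
  · intro hE ρ hρ
    rw [← h3 ρ hρ]
    intro p hp hb
    rw [hE] at hp
    obtain ⟨r, hr, rfl⟩ := hp
    have := bottom_unique (by omega) (by omega) hb bottom_point
    have heq : r = ρ := by omega
    rw [heq]
  · intro hall
    ext p
    constructor
    · intro hp
      obtain ⟨ρ, hρ, hb, _, _⟩ := h2 p hp
      exact ⟨ρ, hρ, (h3 ρ hρ).2 (hall ρ hρ) p hp hb⟩
    · rintro ⟨r, hr, rfl⟩
      exact (h1 r hr).2.2.2

end Pool.Agent.Results.MP_05ae4a_co.FranklPoints
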