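import Pool.Agent.Lib_MP_05ae4a_dk.ChainMax
import Pool.Agent.Lib_MP_05ae4a_dk.ListSupT

/-!
# MP_05ae4a_co: the set `E_n(t)` for `n^2 + 6 n ≤ 3 (t - 1)^2 + 4`, and beyond this range away from the middle sizes

For `t ≥ 2` and `n^2 + 6 n ≤ 3 (t - 1)^2 + 4` (about `n ≤ 1.73 t`) the set `E_n(t)` consists of the profiles `v_{m,r}` of the
families: all sets of size `≥ n - m`, and the sets of size between `t + m` and `n - m` with at least `t + r` elements among the first
`t + 2r`, where `r ≤ m`, `t + 2m ≤ n` and (`r = m` or `(m+1)(t+2r+1) < (r+1) n`).  For larger `n` the same is proved for the profiles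
restricted to the sizes `≤ s₀` and `≥ n + t - 1 - s₀`, where `N = 2 s₀ + 1 - t` satisfies `N^2 + 6 N ≤ 3 (t - 1)^2 + 4`.
-/

namespace Pool.Agent.Results.MP_05ae4a_co.LinearRange

open Pool.Agent.ProfSR Pool.Agent.ProfOP Pool.Agent.ProfDK

/-- the family `F` of subsets of `{0, ..., n - 1}` is `t`-intersecting -/
def TInter (n t : ℕ) (F : Finset (Finset (Fin n))) : Prop :=
  ∀ A ∈ F, ∀ B ∈ F, t ≤ (A ∩ B).card

/-- the profile vector `(p_0, ..., p_n)` of the family `F` -/
def profile (n : ℕ) (F : Finset (Finset (Fin n))) : Fin (n + 1) → ℝ :=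
  fun k => ((F.filter (fun A => A.card = (k : ℕ))).card : ℝ)

/-- the set `P_n(t)` of profile vectors of `t`-intersecting families -/
def P (n t : ℕ) : Set (Fin (n + 1) → ℝ) :=
  {p | ∃ F : Finset (Finset (Fin n)), TInter n t F ∧ p = profile n F}

/-- the essential extreme points of the convex hull of a set: the extreme points which are not below
another extreme point -/
def Essential {m : ℕ} (X : Set (Fin m → ℝ)) : Set (Fin m → ℝ) :=
  {p | p ∈ (convexHull ℝ X).extremePoints ℝ ∧
    ∀ q ∈ (convexHull ℝ X).extremePoints ℝ, p ≤ q → q = p}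

/-- the set `E_n(t)` -/
def E (n t : ℕ) : Set (Fin (n + 1) → ℝ) := Essential (P n t)

/-- the point `v_{m,r}`: its coordinate `k` is `0` for `k < t + m`, it is
`∑_{t + r ≤ i ≤ k} C(t + 2r, i) C(n - t - 2r, k - i)` for `t + m ≤ k < n - m`, and `C(n, k)` for `n - m ≤ k` -/
def point (n t m r : ℕ) : Fin (n + 1) → ℝ :=
  fun k => if n ≤ (k : ℕ) + m then (n.choose (k : ℕ) : ℝ)
    else if (k : ℕ) < t + m then 0
    else ∑ i ∈ Finset.Icc (t + r) (k : ℕ),
      ((t + 2 * r).choose i : ℝ) * ((n - (t + 2 * r)).choose ((k : ℕ) - i) : ℝ)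

/-- the pairs `(m, r)` of the list -/
def Listed (n t m r : ℕ) : Prop :=
  r ≤ m ∧ t + 2 * m ≤ n ∧ (r = m ∨ (m + 1) * (t + 2 * r + 1) < (r + 1) * n)

/-- the vector `p` with the coordinates `k`, `s₀ < k < n + t - 1 - s₀`, replaced by `0` -/
def restrict (n t s₀ : ℕ) (p : Fin (n + 1) → ℝ) : Fin (n + 1) → ℝ :=
  fun k => if (k : ℕ) ≤ s₀ ∨ n + t ≤ (k : ℕ) + s₀ + 1 then p k else 0

/-! ### Dictionary -/

theorem card_split {n : ℕ} (A T : Finset (Fin n)) : (A ∩ T).card + (A \ T).card = A.card := by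
  rw [Finset.card_inter_add_card_sdiff]

theorem card_level {n : ℕ} (I : Finset (Fin n)) (k i : ℕ) (hik : i ≤ k) :
    (Finset.univ.filter (fun A : Finset (Fin n) => A.card = k ∧ (A ∩ I).card = i)).card =
      I.card.choose i * (n - I.card).choose (k - i) := by
  have hc : (Iᶜ).card = n - I.card := by rw [Finset.card_compl, Fintype.card_fin]
  rw [← hc, ← Finset.card_powersetCard i I, ← Finset.card_powersetCard (k - i) Iᶜ,
    ← Finset.card_product]
  refine Finset.card_bij (fun A _ => (A ∩ I, A \ I)) ?_ ?_ ?_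
  · intro A hA
    rw [Finset.mem_filter] at hA
    obtain ⟨_, h1, h2⟩ := hA
    have h3 := card_split A I
    rw [Finset.mem_product, Finset.mem_powersetCard, Finset.mem_powersetCard]
    refine ⟨⟨Finset.inter_subset_right, h2⟩,
      ⟨fun x hx => Finset.mem_compl.2 (Finset.mem_sdiff.1 hx).2, ?_⟩⟩
    show (A \ I).card = k - i
    omega
  · intro A _ B _ hAB
    simp only [Prod.mk.injEq] at hAB
    ext x
    have h1 := Finset.ext_iff.1 hAB.1 x
    have h2 := Finset.ext_iff.1 hAB.2 x
    by_cases hx : x ∈ I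
    · simpa [hx] using h1
    · simpa [hx] using h2
  · rintro ⟨S, T⟩ hST
    rw [Finset.mem_product, Finset.mem_powersetCard, Finset.mem_powersetCard] at hST
    obtain ⟨⟨h1, h2⟩, h3, h4⟩ := hST
    simp only at h1 h2 h3 h4
    have hTI : ∀ x ∈ T, x ∉ I := fun x hx => Finset.mem_compl.1 (h3 hx)
    have hd : Disjoint S T := by
      rw [Finset.disjoint_left]
      intro x hx hxT
      exact hTI x hxT (h1 hx)
    have e1 : (S ∪ T) ∩ I = S := by
      ext x
      simp only [Finset.mem_inter, Finset.mem_union]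
      constructor
      · rintro ⟨hx | hx, hxI⟩
        · exact hx
        · exact absurd hxI (hTI x hx)
      · intro hx
        exact ⟨Or.inl hx, h1 hx⟩
    have e2 : (S ∪ T) \ I = T := by
      ext x
      simp only [Finset.mem_sdiff, Finset.mem_union]
      constructor
      · rintro ⟨hx | hx, hxI⟩
        · exact absurd (h1 hx) hxI
        · exact hx
      · intro hx
        exact ⟨Or.inr hx, hTI x hx⟩
    refine ⟨S ∪ T, ?_, by rw [e1, e2]⟩
    rw [Finset.mem_filter, e1, Finset.card_union_of_disjoint hd, h2, h4]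
    exact ⟨Finset.mem_univ _, by omega, rfl⟩

theorem plev_frankl {n t r : ℕ} (h : t + 2 * r ≤ n) (k : ℕ) :
    (plev (Fr n t r) k : ℝ) = ∑ i ∈ Finset.Icc (t + r) k,
      ((t + 2 * r).choose i : ℝ) * ((n - (t + 2 * r)).choose (k - i) : ℝ) := by
  unfold plev
  obtain ⟨I, hI⟩ : ∃ I : Finset (Fin n), I = Finset.univ.filter (fun x : Fin n => (x : ℕ) < t + 2 * r) :=
    ⟨_, rfl⟩
  have hIc : I.card = t + 2 * r := by
    have h1 : I.map Fin.valEmbedding = Finset.range (t + 2 * r) := by
      ext x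
      rw [hI]
      simp only [Finset.mem_map, Finset.mem_filter, Finset.mem_univ, true_and, Fin.valEmbedding_apply,
        Finset.mem_range]
      constructor
      · rintro ⟨y, hy, rfl⟩
        exact hy
      · intro hx
        exact ⟨⟨x, by omega⟩, hx, rfl⟩
    rw [← Finset.card_map Fin.valEmbedding, h1, Finset.card_range]
  have hAI : ∀ A : Finset (Fin n), A.filter (fun x : Fin n => (x : ℕ) < t + 2 * r) = A ∩ I := by
    intro A
    rw [hI]
    ext x
    simp only [Finset.mem_inter, Finset.mem_filter, Finset.mem_univ, true_and]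
  have hcov : (Fr n t r).filter (fun A => A.card = k) =
      (Finset.Icc (t + r) k).biUnion (fun i =>
        Finset.univ.filter (fun A : Finset (Fin n) => A.card = k ∧ (A ∩ I).card = i)) := by
    ext A
    simp only [Fr, Finset.mem_filter, Finset.mem_univ, true_and, Finset.mem_biUnion,
      Finset.mem_Icc, hAI]
    constructor
    · rintro ⟨h1, h2⟩
      refine ⟨(A ∩ I).card, ⟨h1, ?_⟩, h2, rfl⟩
      rw [← h2]
      exact Finset.card_le_card Finset.inter_subset_left
    · rintro ⟨i, ⟨h1, h2⟩, h3, h4⟩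
      exact ⟨by omega, h3⟩
  rw [hcov, Finset.card_biUnion]
  · rw [Nat.cast_sum]
    refine Finset.sum_congr rfl (fun i hi => ?_)
    rw [Finset.mem_Icc] at hi
    rw [card_level I k i hi.2, hIc]
    push_cast
    rfl
  · intro i _ j _ hij
    rw [Function.onFun, Finset.disjoint_left]
    intro A hA hA'
    rw [Finset.mem_filter] at hA hA'
    exact hij (hA.2.2.symm.trans hA'.2.2)

theorem prof_point {n t m r : ℕ} (hr : r ≤ m) (hm : t + 2 * m ≤ n) :
    prof n (Gf n t r (t + m)) = point n t m r := by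
  funext k
  unfold prof point
  rw [gf_lev (by omega)]
  by_cases h1 : n ≤ (k : ℕ) + m
  · rw [if_pos h1, if_pos (by omega)]
  · rw [if_neg h1, if_neg (by omega)]
    by_cases h2 : (k : ℕ) < t + m
    · rw [if_pos h2, if_pos h2, Nat.cast_zero]
    · rw [if_neg h2, if_neg h2]
      exact plev_frankl (by omega) _

theorem PP_eq (n t : ℕ) : PP n t = P n t := rfl

theorem trp_eq (n t s₀ : ℕ) (p : Fin (n + 1) → ℝ) : trp n t s₀ p = restrict n t s₀ p := by
  funext k
  unfold trp restrict Win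
  congr 1

theorem PT_eq (n t s₀ : ℕ) : PT n t s₀ = {q | ∃ p ∈ P n t, q = restrict n t s₀ p} := by
  ext q
  constructor
  · rintro ⟨F, hF, rfl⟩
    exact ⟨prof n F, ⟨F, hF, rfl⟩, trp_eq n t s₀ _⟩
  · rintro ⟨p, ⟨F, hF, rfl⟩, rfl⟩
    exact ⟨F, hF, (trp_eq n t s₀ _).symm⟩

/-! ### The theorem -/

/-- Let `n ≥ t ≥ 2`.  If `n^2 + 6 n ≤ 3 (t - 1)^2 + 4` then `E_n(t)` is the set of the points `v_{m,r}` of the list.  For all `n`: if
`t ≤ s₀ + 1` and `N = 2 s₀ + 1 - t` satisfies `N^2 + 6 N ≤ 3 (t - 1)^2 + 4` then the essential extreme points of the profiles restricted to the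
sizes `≤ s₀` and `≥ n + t - 1 - s₀` are the restrictions of the points `v_{m,r}` of the list with `t + m ≤ s₀ + 1`. -/
theorem result (n t : ℕ) (ht : 2 ≤ t) (htn : t ≤ n) :
    (n * n + 6 * n ≤ 3 * ((t - 1) * (t - 1)) + 4 →
      E n t = {p | ∃ m r, Listed n t m r ∧ p = point n t m r}) ∧
    ∀ s₀, t ≤ s₀ + 1 →
      (2 * s₀ + 1 - t) * (2 * s₀ + 1 - t) + 6 * (2 * s₀ + 1 - t) ≤ 3 * ((t - 1) * (t - 1)) + 4 →
      Essential {q | ∃ p ∈ P n t, q = restrict n t s₀ p} =
        {q | ∃ m r, Listed n t m r ∧ t + m ≤ s₀ + 1 ∧ q = restrict n t s₀ (point n t m r)} := by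
  refine ⟨?_, ?_⟩
  · intro hn
    have hD : DKw n (t - 1) 0 := dk_walk (by omega) (by omega : n ≤ n + 0) hn
    have hsub : ∀ p ∈ Ess (PP n t), ∃ m r, InL n t m r ∧ p = prof n (Gf n t r (t + m)) := by
      intro p hp
      refine list_sub (by omega) (fun α hα F hF => ?_) hp
      exact main_dk (by omega) htn hD hα (fun s h1 h2 => absurd h2 (by omega)) hF
    ext p
    constructor
    · intro hp
      obtain ⟨m, r, h1, h2⟩ := hsub p hp
      exact ⟨m, r, h1, by rw [h2, prof_point h1.1 h1.2.1]⟩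
    · rintro ⟨m, r, h1, rfl⟩
      have := list_sup ht hsub h1
      rwa [prof_point h1.1 h1.2.1] at this
  · intro s₀ hs hN
    have hD : DKw n (t - 1) (n + t - 1 - 2 * s₀) := dk_walk (by omega) (by omega) hN
    have hsub : ∀ p ∈ Ess (PT n t s₀), ∃ m r, InL n t m r ∧ t + m ≤ s₀ + 1 ∧
        p = trp n t s₀ (prof n (Gf n t r (t + m))) := by
      intro p hp
      refine list_subT (by omega) hs (fun α hα hα0 F hF => ?_) hp
      refine main_dk (by omega) htn hD hα (fun s h1 h2 => hα0 s ?_) hF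
      unfold Win
      omega
    rw [← PT_eq]
    ext p
    constructor
    · intro hp
      obtain ⟨m, r, h1, h2, h3⟩ := hsub p hp
      exact ⟨m, r, h1, h2, by rw [h3, prof_point h1.1 h1.2.1, trp_eq]⟩
    · rintro ⟨m, r, h1, h2, rfl⟩
      have := list_supT ht hsub h1 h2
      rwa [prof_point h1.1 h1.2.1, trp_eq] at this

end Pool.Agent.Results.MP_05ae4a_co.LinearRange
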