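import Pool.Agent.Lib_MP_05ae4a_co.Fam
import Pool.Agent.Lib_MP_05ae4a_op.Bridge

/-!
# MP_05ae4a_co: weighted `t`-intersection theorem for monotone weights, and the lower half of the profile

For weights `α ≥ 0` with `α_{s'} ≤ α_s` for `t ≤ s < s' = n + t - 1 - s` and such that
`(s' - s) (α_s - α_{s'}) / (α_s + α_{s'})` does not increase with `s`, the maximum of `∑ α_s p_s` over all
`t`-intersecting families is attained by one of the families `F_{r,k}`.  Hence, for arbitrary weights on the sizes
`s < (n + t) / 2`, it is attained by one of the Frankl families `F_r`.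
-/

namespace Pool.Agent.Results.MP_05ae4a_co.MonotoneWeights

open Pool.Agent.ProfSR Pool.Agent.ProfOP
open Pool.Agent.ProfEP (zer)

/-- the family `F` of subsets of `{0, ..., n - 1}` is `t`-intersecting -/
def TInter (n t : ℕ) (F : Finset (Finset (Fin n))) : Prop :=
  ∀ A ∈ F, ∀ B ∈ F, t ≤ (A ∩ B).card

/-- the number `p_s` of `s`-element members of `F` -/
def level {n : ℕ} (F : Finset (Finset (Fin n))) (s : ℕ) : ℕ := (F.filter (fun A => A.card = s)).card

/-- the Frankl family `F_r` of all sets with at least `t + r` elements among the first `t + 2r` -/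
def frankl (n t r : ℕ) : Finset (Finset (Fin n)) :=
  Finset.univ.filter (fun A => t + r ≤ (A.filter (fun x : Fin n => (x : ℕ) < t + 2 * r)).card)

/-- the family `F_{r,k}`: the members of `F_r` with at least `k` elements and all sets with at least
`n + t - k` elements -/
def mixed (n t r k : ℕ) : Finset (Finset (Fin n)) :=
  Finset.univ.filter (fun A => (A ∈ frankl n t r ∧ k ≤ A.card) ∨ n + t ≤ A.card + k)

/-- the lower half of the profile: the numbers `p_s`, `s < (n + t) / 2` -/
def lower (n t : ℕ) (F : Finset (Finset (Fin n))) : Fin ((n + t + 1) / 2) → ℝ := fun s => (level F s : ℝ)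

/-- the lower halves of the profiles of all `t`-intersecting families -/
def Q (n t : ℕ) : Set (Fin ((n + t + 1) / 2) → ℝ) :=
  {p | ∃ F : Finset (Finset (Fin n)), TInter n t F ∧ p = lower n t F}

/-- the essential extreme points of the convex hull of a set: the extreme points which are not below
another extreme point -/
def Essential {m : ℕ} (X : Set (Fin m → ℝ)) : Set (Fin m → ℝ) :=
  {p | p ∈ (convexHull ℝ X).extremePoints ℝ ∧
    ∀ q ∈ (convexHull ℝ X).extremePoints ℝ, p ≤ q → q = p}

/-! ### Dictionary -/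

theorem mixed_eq (n t r k : ℕ) : mixed n t r k = Gf n t r k := by
  unfold mixed Gf frankl
  refine Finset.filter_congr (fun A _ => ?_)
  simp only [Finset.mem_filter, Finset.mem_univ, true_and]

theorem Q_finite (n t : ℕ) : (Q n t).Finite := by
  refine (Set.finite_range (fun F : Finset (Finset (Fin n)) => lower n t F)).subset ?_
  rintro p ⟨F, _, rfl⟩
  exact ⟨F, rfl⟩

theorem Q_nonneg {n t : ℕ} : ∀ p ∈ Q n t, 0 ≤ p := by
  rintro p ⟨F, _, rfl⟩ k
  exact Nat.cast_nonneg _

theorem Q_zer {n t : ℕ} : ∀ p ∈ Q n t, ∀ S : Finset (Fin ((n + t + 1) / 2)), zer S p ∈ Q n t := by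
  rintro p ⟨F, hF, rfl⟩ S
  refine ⟨F.filter (fun A => ∃ k ∈ S, A.card = (k : ℕ)), ?_, ?_⟩
  · intro A hA B hB
    exact hF A (Finset.mem_filter.1 hA).1 B (Finset.mem_filter.1 hB).1
  · funext k
    unfold zer lower level
    rw [Finset.filter_filter]
    split_ifs with hk
    · congr 2
      ext A
      simp only [Finset.mem_filter]
      constructor
      · rintro ⟨h1, h2⟩
        exact ⟨h1, ⟨k, hk, h2⟩, h2⟩
      · rintro ⟨h1, _, h2⟩
        exact ⟨h1, h2⟩
    · symm
      rw [Nat.cast_eq_zero, Finset.card_eq_zero, Finset.filter_eq_empty_iff]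
      rintro A _ ⟨⟨k', hk', h1⟩, h2⟩
      exact hk ((Fin.ext (h1.symm.trans h2) : k' = k) ▸ hk')

theorem sum_lower {n t : ℕ} (α : Fin ((n + t + 1) / 2) → ℝ) (F : Finset (Finset (Fin n))) :
    ∑ A ∈ F, lw α A.card = val α (lower n t F) := by
  rw [lw_sum]
  rfl

theorem sum_level {n : ℕ} (α : ℕ → ℝ) (F : Finset (Finset (Fin n))) :
    ∑ A ∈ F, α A.card = ∑ s ∈ Finset.range (n + 1), α s * level F s := by
  have hmaps : ∀ C ∈ F, C.card ∈ Finset.range (n + 1) := by
    intro C _
    have := Finset.card_le_univ C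
    rw [Fintype.card_fin] at this
    exact Finset.mem_range.2 (by omega)
  rw [← Finset.sum_fiberwise_of_maps_to hmaps]
  refine Finset.sum_congr rfl fun j _ => ?_
  have h1 : ∀ C ∈ F.filter (fun C => C.card = j), α C.card = α j := by
    intro C hC
    rw [(Finset.mem_filter.1 hC).2]
  rw [Finset.sum_congr rfl h1, Finset.sum_const, nsmul_eq_mul, mul_comm]
  rfl

theorem frankl_inter (n t r : ℕ) : TInter n t (frankl n t r) := by
  have h1 := Gf_inter (n := n) (t := t) (r := r) (k := 0) (by omega)
  intro A hA B hB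
  refine h1 A ?_ B ?_
  · unfold Gf
    rw [Finset.mem_filter]
    exact ⟨Finset.mem_univ _, Or.inl ⟨(Finset.mem_filter.1 hA).2, Nat.zero_le _⟩⟩
  · unfold Gf
    rw [Finset.mem_filter]
    exact ⟨Finset.mem_univ _, Or.inl ⟨(Finset.mem_filter.1 hB).2, Nat.zero_le _⟩⟩

/-- one pair `(r, k)` for all families -/
theorem uniform {n t : ℕ} (ht : 1 ≤ t) (htn : t ≤ n) {α : ℕ → ℝ} (hα : ∀ i, 0 ≤ α i)
    (C1 : ∀ s, t ≤ s → 2 * s + 1 < n + t → α (n + t - 1 - s) ≤ α s)
    (C2 : ∀ s u, t ≤ s → s < u → 2 * u + 1 < n + t →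
      ((n + t - 1 - 2 * u : ℕ) : ℝ) * (α u - α (n + t - 1 - u)) * (α s + α (n + t - 1 - s)) ≤
        ((n + t - 1 - 2 * s : ℕ) : ℝ) * (α s - α (n + t - 1 - s)) * (α u + α (n + t - 1 - u))) :
    ∃ r k, t + 2 * r ≤ n ∧ 2 * k ≤ n + t ∧ TInter n t (mixed n t r k) ∧
      ∀ F, TInter n t F → ∑ s ∈ Finset.range (n + 1), α s * level F s ≤
        ∑ s ∈ Finset.range (n + 1), α s * level (mixed n t r k) s := by
  classical
  have hne : ((Finset.univ : Finset (Finset (Finset (Fin n)))).filter (fun F => TInter n t F)).Nonempty := by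
    refine ⟨∅, Finset.mem_filter.2 ⟨Finset.mem_univ _, ?_⟩⟩
    intro A hA
    exact absurd hA (Finset.notMem_empty A)
  obtain ⟨F, hF, hmax⟩ := Finset.exists_max_image _ (fun F => ∑ A ∈ F, α A.card) hne
  have hFT := (Finset.mem_filter.1 hF).2
  obtain ⟨r, k, h1, h2, h3⟩ := mainB ht htn hα C1 C2 hFT
  refine ⟨r, k, h1, h2, ?_, ?_⟩
  · rw [mixed_eq]
    exact Gf_inter h2
  · intro F' hF'
    rw [← sum_level, ← sum_level, mixed_eq]
    exact (hmax F' (Finset.mem_filter.2 ⟨Finset.mem_univ _, hF'⟩)).trans h3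

/-! ### The theorem -/

/-- Let `1 ≤ t ≤ n`.

(a) For nonnegative weights with (C1), (C2) the maximum over all `t`-intersecting families is attained by
some `F_{r,k}`.

(b) For every `t`-intersecting family the lower half of the profile is below a convex combination of the
lower halves of the profiles of the Frankl families.

(c) Every essential extreme point of the lower halves of the profiles is the lower half of the profile
of a Frankl family. -/
theorem result (n t : ℕ) (ht : 1 ≤ t) (htn : t ≤ n) :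
    (∀ α : ℕ → ℝ, (∀ s, 0 ≤ α s) →
      (∀ s, t ≤ s → 2 * s < n + t - 1 → α (n + t - 1 - s) ≤ α s) →
      (∀ s u, t ≤ s → s < u → 2 * u < n + t - 1 →
        ((n + t - 1 - 2 * u : ℕ) : ℝ) * ((α u - α (n + t - 1 - u)) * (α s + α (n + t - 1 - s))) ≤
          ((n + t - 1 - 2 * s : ℕ) : ℝ) * ((α s - α (n + t - 1 - s)) * (α u + α (n + t - 1 - u)))) →
      ∃ r k, t + 2 * r ≤ n ∧ 2 * k ≤ n + t ∧ TInter n t (mixed n t r k) ∧
        ∀ F, TInter n t F → ∑ s ∈ Finset.range (n + 1), α s * level F s ≤
          ∑ s ∈ Finset.range (n + 1), α s * level (mixed n t r k) s) ∧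
    (∀ F : Finset (Finset (Fin n)), TInter n t F →
      ∃ c : ℕ → ℝ, (∀ r, 0 ≤ c r) ∧ ∑ r ∈ Finset.range ((n - t) / 2 + 1), c r = 1 ∧
        ∀ s, 2 * s < n + t → (level F s : ℝ) ≤
          ∑ r ∈ Finset.range ((n - t) / 2 + 1), c r * (level (frankl n t r) s : ℝ)) ∧
    (∀ p ∈ Essential (Q n t), ∃ r, t + 2 * r ≤ n ∧ p = lower n t (frankl n t r)) := by
  refine ⟨?_, ?_, ?_⟩
  · intro α hα C1 C2
    refine uniform ht htn hα (fun s h1 h2 => C1 s h1 (by omega)) (fun s u h1 h2 h3 => ?_)
    have := C2 s u h1 h2 (by omega)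
    rw [mul_assoc, mul_assoc]
    exact this
  · intro F hF
    obtain ⟨c, hc0, hc1, hc⟩ := lower_half ht htn hF
    refine ⟨fun r => if h : r < (n - t) / 2 + 1 then c ⟨r, h⟩ else 0, ?_, ?_, ?_⟩
    · intro r
      dsimp only
      split_ifs
      · exact hc0 _
      · exact le_rfl
    · rw [Finset.sum_range, ← hc1]
      refine Finset.sum_congr rfl fun i _ => ?_
      rw [dif_pos i.2]
    · intro s hs
      refine (hc s hs).trans (le_of_eq ?_)
      rw [Finset.sum_range]
      refine Finset.sum_congr rfl fun i _ => ?_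
      dsimp only
      rw [dif_pos i.2]
      rfl
  · intro p hp
    obtain ⟨α, hα, hmax⟩ := unique_of_ess (Q_finite n t) Q_nonneg Q_zer hp
    obtain ⟨F, hF, hpF⟩ := extremePoints_convexHull_subset hp.1
    have hlw : ∀ i, 0 ≤ lw α i := by
      intro i
      unfold lw
      split_ifs
      · exact (hα _).le
      · exact le_rfl
    obtain ⟨c, hc0, hc1, hc⟩ := lower_half ht htn hF
    -- some Frankl family has at least the value of `F`
    have h1 : val α p ≤ ∑ r, c r * val α (lower n t (frankl n t r)) := by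
      unfold val
      simp_rw [Finset.mul_sum]
      rw [Finset.sum_comm]
      refine Finset.sum_le_sum fun i _ => ?_
      have h2 := hc i (by have := i.2; omega)
      rw [hpF]
      calc α i * lower n t F i ≤ α i * ∑ r, c r * (plev (Fr n t r) i : ℝ) :=
            mul_le_mul_of_nonneg_left h2 (hα i).le
        _ = _ := by
            rw [Finset.mul_sum]
            refine Finset.sum_congr rfl fun r _ => ?_
            show α i * (c r * (plev (Fr n t r) i : ℝ)) = c r * (α i * (level (frankl n t r) i : ℝ))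
            have : (plev (Fr n t r) i : ℝ) = (level (frankl n t r) i : ℝ) := rfl
            rw [this]
            ring
    by_contra hcon
    push Not at hcon
    have h3 : ∀ r : Fin ((n - t) / 2 + 1), val α (lower n t (frankl n t r)) < val α p := by
      intro r
      refine hmax _ ⟨_, frankl_inter n t r, rfl⟩ (fun h => hcon r (by have := r.2; omega) h.symm)
    have h4 : ∑ r, c r * val α (lower n t (frankl n t r)) < ∑ r, c r * val α p := by
      have hpos : ∃ r, 0 < c r := by
        by_contra h5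
        push Not at h5
        have : ∑ r, c r ≤ 0 := Finset.sum_nonpos fun r _ => h5 r
        rw [hc1] at this
        exact absurd this (by norm_num)
      obtain ⟨r0, hr0⟩ := hpos
      exact Finset.sum_lt_sum (fun r _ => mul_le_mul_of_nonneg_left (h3 r).le (hc0 r))
        ⟨r0, Finset.mem_univ _, mul_lt_mul_of_pos_left (h3 r0) hr0⟩
    rw [← Finset.sum_mul, hc1, one_mul] at h4
    exact absurd h1 (not_le.2 h4)

end Pool.Agent.Results.MP_05ae4a_co.MonotoneWeights
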