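import Pool.Agent.Lib_MP_05ae4a_co.Fam
import Pool.Agent.Lib_MP_05ae4a_op.Bridge

/-!
# MP_05ae4a_co: every essential extreme point comes from a chain of intersecting up-sets

The status set of `A` is the set of all `r` with `t + 2r < n` for which `A` has at least `t + r` of the
first `t + 2r` elements.  Every essential extreme point is the profile of a `t`-intersecting family in
which membership of `A` depends only on `|A|` and on the status set of `A`; the family is given by a chain
`J_0 ⊆ J_1 ⊆ ...` of intersecting up-sets of status sets.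
-/

namespace Pool.Agent.Results.MP_05ae4a_co.StatusChains

open Pool.Agent.ProfSR Pool.Agent.ProfOP
open Pool.Agent.ProfEP (zer)

/-- the family `F` of subsets of `{0, ..., n - 1}` is `t`-intersecting -/
def TInter (n t : ℕ) (F : Finset (Finset (Fin n))) : Prop :=
  ∀ A ∈ F, ∀ B ∈ F, t ≤ (A ∩ B).card

/-- the profile vector `(p_0, ..., p_n)` of the family `F` -/
def profile (n : ℕ) (F : Finset (Finset (Fin n))) : Fin (n + 1) → ℝ :=
  fun k => ((F.filter (fun A => A.card = (k : ℕ))).card : ℝ)

/-- the set `P_n(t)` of profile vectors of `t`-intersecting families -/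
def P (n t : ℕ) : Set (Fin (n + 1) → ℝ) :=
  {p | ∃ F : Finset (Finset (Fin n)), TInter n t F ∧ p = profile n F}

/-- the set `E_n(t)` of essential extreme points: the extreme points of the convex hull of
`P_n(t)` which are not below another extreme point -/
def E (n t : ℕ) : Set (Fin (n + 1) → ℝ) :=
  {p | p ∈ (convexHull ℝ (P n t)).extremePoints ℝ ∧
    ∀ q ∈ (convexHull ℝ (P n t)).extremePoints ℝ, p ≤ q → q = p}

/-- the possible statuses: all `r` with `t + 2r < n` -/
def places (n t : ℕ) : Finset ℕ := (Finset.range n).filter (fun r => t + 2 * r < n)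

/-- the status set of `A`: all `r` with `t + 2r < n` such that `A` contains at least `t + r` of the
first `t + 2r` elements -/
def status (n t : ℕ) (A : Finset (Fin n)) : Finset ℕ :=
  (places n t).filter (fun r => t + r ≤ (A.filter (fun x : Fin n => (x : ℕ) < t + 2 * r)).card)

/-- `U` is an intersecting up-set of subsets of `{r | t + 2r < n}` -/
structure InterUp (n t : ℕ) (U : Set (Finset ℕ)) : Prop where
  sub : ∀ σ ∈ U, σ ⊆ places n t
  up : ∀ σ ∈ U, ∀ τ, τ ⊆ places n t → σ ⊆ τ → τ ∈ U
  int : ∀ σ ∈ U, ∀ τ ∈ U, (σ ∩ τ).Nonempty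

/-- `J_0 ⊆ J_1 ⊆ ...`, indexed by the sizes `s < (n + t) / 2`, is a chain of intersecting up-sets of
subsets of `{r | t + 2r < n}` -/
structure Chain (n t : ℕ) (J : ℕ → Set (Finset ℕ)) : Prop where
  inter : ∀ s, 2 * s < n + t → InterUp n t (J s)
  mono : ∀ s u, s ≤ u → 2 * u < n + t → J s ⊆ J u

open Classical in
/-- the family of a chain: a set `A` of size `s < (n + t) / 2` is a member iff its status set is in
`J_s`, a set `A` of size `s ≥ (n + t) / 2` iff the complement of its status set is not in
`J_{n + t - 1 - s}` -/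
noncomputable def family (n t : ℕ) (J : ℕ → Set (Finset ℕ)) : Finset (Finset (Fin n)) :=
  Finset.univ.filter (fun A =>
    (2 * A.card < n + t ∧ status n t A ∈ J A.card) ∨
      (n + t ≤ 2 * A.card ∧ places n t \ status n t A ∉ J (n + t - 1 - A.card)))

/-! ### Dictionary -/

theorem places_eq {n t : ℕ} (h : 1 ≤ t) : places n t = Finset.range (R (t - 1) n) := by
  ext r
  unfold places R
  rw [Finset.mem_filter, Finset.mem_range, Finset.mem_range]
  omega

theorem status_eq {n t : ℕ} (h : 1 ≤ t) (A : Finset (Fin n)) : status n t A = sta n t A := by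
  unfold status sta
  rw [places_eq h]

theorem family_eq {n t : ℕ} (h : 1 ≤ t) (J : ℕ → Set (Finset ℕ)) : family n t J = chainF n t J := by
  classical
  unfold family chainF
  simp only [status_eq h, places_eq h]

theorem iu_iff {n t : ℕ} (h : 1 ≤ t) {U : Set (Finset ℕ)} : InterUp n t U ↔ IU (R (t - 1) n) U := by
  constructor
  · rintro ⟨h1, h2, h3⟩
    rw [places_eq h] at h1 h2
    exact ⟨h1, h2, fun σ hσ τ hτ hd => by
      have := h3 σ hσ τ hτ
      rw [Finset.disjoint_iff_inter_eq_empty.1 hd] at this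
      exact Finset.not_nonempty_empty this⟩
  · rintro ⟨h1, h2, h3⟩
    rw [← places_eq h] at h1 h2
    exact ⟨h1, h2, fun σ hσ τ hτ => by
      have := h3 σ hσ τ hτ
      rwa [Finset.not_disjoint_iff_nonempty_inter] at this⟩

theorem P_finite (n t : ℕ) : (P n t).Finite := by
  refine (Set.finite_range (fun F : Finset (Finset (Fin n)) => profile n F)).subset ?_
  rintro p ⟨F, _, rfl⟩
  exact ⟨F, rfl⟩

theorem P_nonneg {n t : ℕ} : ∀ p ∈ P n t, 0 ≤ p := by
  rintro p ⟨F, _, rfl⟩ k
  exact Nat.cast_nonneg _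

theorem P_zer {n t : ℕ} : ∀ p ∈ P n t, ∀ S : Finset (Fin (n + 1)), zer S p ∈ P n t := by
  rintro p ⟨F, hF, rfl⟩ S
  refine ⟨F.filter (fun A => ∃ k ∈ S, A.card = (k : ℕ)), ?_, ?_⟩
  · intro A hA B hB
    exact hF A (Finset.mem_filter.1 hA).1 B (Finset.mem_filter.1 hB).1
  · funext k
    unfold zer profile
    rw [Finset.filter_filter]
    split_ifs with hk
    · congr 2
      ext A
      simp only [Finset.mem_filter]
      constructor
      · rintro ⟨h1, h2⟩
        exact ⟨h1, ⟨k, hk, h2⟩, h2⟩
      · rintro ⟨h1, _, h2⟩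
        exact ⟨h1, h2⟩
    · symm
      rw [Nat.cast_eq_zero, Finset.card_eq_zero, Finset.filter_eq_empty_iff]
      rintro A _ ⟨⟨k', hk', h1⟩, h2⟩
      exact hk ((Fin.ext (h1.symm.trans h2) : k' = k) ▸ hk')

theorem sum_profile {n : ℕ} (α : Fin (n + 1) → ℝ) (F : Finset (Finset (Fin n))) :
    ∑ A ∈ F, lw α A.card = val α (profile n F) := by
  rw [lw_sum]
  rfl

/-! ### The theorem -/

/-- Let `1 ≤ t`.  The family of every chain is `t`-intersecting, and every essential extreme point is
the profile of the family of a chain. -/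
theorem result (n t : ℕ) (ht : 1 ≤ t) :
    (∀ J, Chain n t J → TInter n t (family n t J)) ∧
      ∀ p ∈ E n t, ∃ J, Chain n t J ∧ p = profile n (family n t J) := by
  have hT : ∀ J, Chain n t J → TInter n t (family n t J) := by
    intro J hJ
    rw [family_eq ht]
    exact chainF_inter (fun s hs => (iu_iff ht).1 (hJ.inter s hs)) hJ.mono
  refine ⟨hT, ?_⟩
  intro p hp
  obtain ⟨α, hα, hmax⟩ := unique_of_ess (P_finite n t) P_nonneg P_zer hp
  obtain ⟨F, hF, hpF⟩ := extremePoints_convexHull_subset hp.1
  have hlw : ∀ i, 0 ≤ lw α i := by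
    intro i
    unfold lw
    split_ifs
    · exact (hα _).le
    · exact le_rfl
  obtain ⟨J, hJ1, hJ2, hJ3⟩ := reduce ht hlw hF
  have hJ : Chain n t J := ⟨fun s hs => (iu_iff ht).2 (hJ1 s hs), fun s u hsu _ => hJ2 s u hsu⟩
  refine ⟨J, hJ, ?_⟩
  rw [sum_profile, sum_profile, ← hpF, ← family_eq ht] at hJ3
  by_contra hne
  exact absurd (hmax _ ⟨family n t J, hT J hJ, rfl⟩ (fun h => hne h.symm)) (not_lt.2 hJ3)

end Pool.Agent.Results.MP_05ae4a_co.StatusChains
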